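import Mathlib

/-! Fourier analysis modulo `M`. Incidence structure `r : T → B → Prop` with finitely many points and blocks,
`N = card T`, `M = card B + 1`. If there is no function `f : B → {1, -1}` with sum zero over the blocks
through every element of `T`, then there are integers `θ` such that the product of the
`cos (2 π θ(W) / M)` (`θ(W)` is the sum of the `θ S` for `S` incident with `W`) is negative and at least
`M ^ (-N)` in absolute value. -/

open Finset

namespace Pool.H38.HQ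

variable {B T : Type} [Fintype B] [Fintype T] [DecidableEq B] [DecidableEq T]
  (r : T → B → Prop) [∀ S W, Decidable (r S W)]

/-- a function is null if its sum over the blocks through each element of `T` is zero -/
def Null (g : B → ℤ) : Prop := ∀ S, ∑ W with r S W, g W = 0

/-- sum of the weights of the elements of `T` incident with a block -/
def tot (θ : T → ℤ) (W : B) : ℤ := ∑ S with r S W, θ S

theorem tot_swap (g : B → ℤ) (θ : T → ℤ) :
    ∑ W, g W * tot r θ W = ∑ S, θ S * ∑ W with r S W, g W := by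
  unfold tot
  simp only [mul_sum, sum_filter]
  rw [sum_comm]
  refine sum_congr rfl fun S _ => sum_congr rfl fun W _ => ?_
  split_ifs <;> ring

/-- product of cosines -/
theorem prod_cos (a : B → ℝ) : ((∏ W, (2 * Real.cos (a W)) : ℝ) : ℂ) =
    ∑ f : B → Bool, Complex.exp (Complex.I * ∑ W, (if f W then 1 else -1) * (a W : ℂ)) := by
  have h1 : ∀ W, ((2 * Real.cos (a W) : ℝ) : ℂ) =
      ∑ b : Bool, Complex.exp (Complex.I * ((if b then 1 else -1) * (a W : ℂ))) := by
    intro W
    rw [Fintype.sum_bool]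
    simp only [if_true, Bool.false_eq_true, if_false]
    push_cast
    rw [Complex.two_cos]
    congr 1 <;> congr 1 <;> ring
  rw [Complex.ofReal_prod]
  simp only [h1]
  rw [Finset.prod_univ_sum]
  simp only [Fintype.piFinset_univ]
  refine sum_congr rfl fun f _ => ?_
  rw [← Complex.exp_sum, mul_sum]

/-- sum of the powers of a root of unity -/
theorem root_sum (M : ℕ) (hM : 0 < M) (X : ℤ) :
    ∑ j : Fin M, Complex.exp (Complex.I * (2 * Real.pi / M * ((j : ℕ) * X : ℂ))) =
      if (M : ℤ) ∣ X then (M : ℂ) else 0 := by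
  have hM0 : (M : ℂ) ≠ 0 := by exact_mod_cast hM.ne'
  obtain ⟨z, hz⟩ : ∃ z, z = Complex.exp (2 * Real.pi * Complex.I / M) := ⟨_, rfl⟩
  have hzp : IsPrimitiveRoot z M := by
    rw [hz]
    exact Complex.isPrimitiveRoot_exp M hM.ne'
  have h1 : ∀ j : Fin M, Complex.exp (Complex.I * (2 * Real.pi / M * ((j : ℕ) * X : ℂ))) =
      (z ^ X) ^ (j : ℕ) := by
    intro j
    rw [hz, ← Complex.exp_int_mul, ← Complex.exp_nat_mul]
    congr 1
    field_simp
  rw [sum_congr rfl fun j _ => h1 j, Fin.sum_univ_eq_sum_range (fun j => (z ^ X) ^ j) M]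
  split_ifs with h
  · have h2 : z ^ X = 1 := (hzp.zpow_eq_one_iff_dvd X).2 h
    simp [h2]
  · have h2 : z ^ X ≠ 1 := fun h3 => h ((hzp.zpow_eq_one_iff_dvd X).1 h3)
    have h3 : (z ^ X) ^ M = 1 := by
      rw [← zpow_natCast, ← zpow_mul, mul_comm, zpow_mul, zpow_natCast, hzp.pow_eq_one, one_zpow]
    rw [geom_sum_eq h2, h3, sub_self, zero_div]

/-- the sum of the products over all `θ` modulo `M` -/
theorem four_sum (M : ℕ) (hM : 0 < M)
    (hno : ∀ f : B → Bool, ∃ S, ¬ (M : ℤ) ∣ ∑ W with r S W, (if f W then 1 else -1 : ℤ)) :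
    ∑ θ : T → Fin M, ∏ W, (2 * Real.cos (2 * Real.pi / M * tot r (fun S => ((θ S : ℕ) : ℤ)) W)) = 0 := by
  rw [← Complex.ofReal_inj, Complex.ofReal_sum]
  simp only [prod_cos]
  rw [sum_comm, Complex.ofReal_zero]
  refine sum_eq_zero fun f _ => ?_
  obtain ⟨S0, hS0⟩ := hno f
  have h1 : ∀ θ : T → Fin M, Complex.exp (Complex.I * ∑ W, (if f W then 1 else -1) *
      ((2 * Real.pi / M * tot r (fun S => ((θ S : ℕ) : ℤ)) W : ℝ) : ℂ)) =
      ∏ S, Complex.exp (Complex.I * (2 * Real.pi / M * (((θ S : ℕ) : ℂ) *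
        ((∑ W with r S W, (if f W then 1 else -1 : ℤ) : ℤ) : ℂ)))) := by
    intro θ
    rw [← Complex.exp_sum]
    congr 1
    rw [← mul_sum, ← mul_sum]
    congr 1
    have h2 := tot_swap r (fun W => (if f W then 1 else -1 : ℤ)) (fun S => ((θ S : ℕ) : ℤ))
    have h3 : ((∑ W, (if f W then 1 else -1 : ℤ) * tot r (fun S => ((θ S : ℕ) : ℤ)) W : ℤ) : ℂ) =
        ((∑ S, ((θ S : ℕ) : ℤ) * ∑ W with r S W, (if f W then 1 else -1 : ℤ) : ℤ) : ℂ) := by
      rw [h2]
    rw [Int.cast_sum, Int.cast_sum] at h3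
    have h4 : ∑ S, (((θ S : ℕ) : ℂ) * ((∑ W with r S W, (if f W then 1 else -1 : ℤ) : ℤ) : ℂ)) =
        ∑ W, (((if f W then 1 else -1 : ℤ) * tot r (fun S => ((θ S : ℕ) : ℤ)) W : ℤ) : ℂ) := by
      rw [h3]
      refine sum_congr rfl fun S _ => ?_
      push_cast
      ring
    rw [h4, mul_sum]
    refine sum_congr rfl fun W _ => ?_
    push_cast
    split_ifs <;> ring
  simp only [h1]
  have h5 := (Finset.prod_univ_sum (fun _ : T => (univ : Finset (Fin M))) (fun S (j : Fin M) =>
    Complex.exp (Complex.I * (2 * Real.pi / M * (((j : ℕ) : ℂ) *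
        ((∑ W with r S W, (if f W then 1 else -1 : ℤ) : ℤ) : ℂ))))))
  simp only [Fintype.piFinset_univ] at h5
  rw [← h5]
  refine prod_eq_zero (mem_univ S0) ?_
  rw [root_sum M hM, if_neg hS0]

/-- the conclusion of the Fourier argument -/
theorem four (hno : ¬ ∃ f : B → ℤ, (∀ W, f W = 1 ∨ f W = -1) ∧ Null r f) :
    ∃ θ : T → ℤ, ∏ W, Real.cos (Real.pi * (2 * tot r θ W / (Fintype.card B + 1))) ≤
      -((Fintype.card B + 1 : ℝ) ^ Fintype.card T)⁻¹ := by
  obtain ⟨M, hM⟩ : ∃ M : ℕ, M = Fintype.card B + 1 := ⟨_, rfl⟩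
  have hM0 : 0 < M := by omega
  have hno' : ∀ f : B → Bool, ∃ S, ¬ (M : ℤ) ∣ ∑ W with r S W, (if f W then 1 else -1 : ℤ) := by
    intro f
    by_contra hc
    push Not at hc
    refine hno ⟨fun W => if f W then 1 else -1, fun W => ?_, fun S => ?_⟩
    · show (if f W then 1 else -1 : ℤ) = 1 ∨ (if f W then 1 else -1 : ℤ) = -1
      split_ifs <;> simp
    · show ∑ W with r S W, (if f W then 1 else -1 : ℤ) = 0
      refine Int.eq_zero_of_abs_lt_dvd (hc S) ?_
      calc |∑ W with r S W, (if f W then 1 else -1 : ℤ)|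
          ≤ ∑ W with r S W, |(if f W then 1 else -1 : ℤ)| := abs_sum_le_sum_abs _ _
        _ = ∑ W with r S W, (1 : ℤ) := by
            refine sum_congr rfl fun W _ => ?_
            split_ifs <;> simp
        _ ≤ Fintype.card B := by
            simp only [sum_const, nsmul_eq_mul, mul_one]
            exact_mod_cast card_le_univ _
        _ < M := by
            rw [hM]
            push_cast
            omega
  have h0 := four_sum r M hM0 hno'
  haveI : NeZero M := ⟨hM0.ne'⟩
  obtain ⟨θ0, hθ0⟩ : ∃ θ0 : T → Fin M, θ0 = fun _ => 0 := ⟨_, rfl⟩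
  rw [← sum_erase_add univ _ (mem_univ θ0)] at h0
  have h1 : ∏ W, (2 * Real.cos (2 * Real.pi / M * tot r (fun S => ((θ0 S : ℕ) : ℤ)) W)) =
      2 ^ Fintype.card B := by
    have h2 : ∀ W, tot r (fun S => ((θ0 S : ℕ) : ℤ)) W = 0 := by
      intro W
      rw [hθ0]
      simp [tot]
    simp only [h2, Int.cast_zero, mul_zero, Real.cos_zero, mul_one, prod_const, card_univ]
  rw [h1] at h0
  by_contra hcon
  push Not at hcon
  have h3 : ∀ θ ∈ (univ : Finset (T → Fin M)).erase θ0,
      -(2 ^ Fintype.card B * ((M : ℝ) ^ Fintype.card T)⁻¹) <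
      ∏ W, (2 * Real.cos (2 * Real.pi / M * tot r (fun S => ((θ S : ℕ) : ℤ)) W)) := by
    intro θ _
    have h4 := hcon (fun S => ((θ S : ℕ) : ℤ))
    rw [prod_mul_distrib, prod_const, card_univ]
    have h6 : (M : ℝ) = Fintype.card B + 1 := by
      rw [hM]
      push_cast
      rfl
    have h5 : ∀ W, Real.cos (2 * Real.pi / M * tot r (fun S => ((θ S : ℕ) : ℤ)) W) =
        Real.cos (Real.pi * (2 * tot r (fun S => ((θ S : ℕ) : ℤ)) W / (Fintype.card B + 1))) := by
      intro W
      congr 1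
      rw [← h6]
      ring
    simp only [h5]
    rw [h6, neg_mul_eq_mul_neg]
    exact mul_lt_mul_of_pos_left h4 (by positivity)
  have h7 : ∑ θ ∈ (univ : Finset (T → Fin M)).erase θ0,
      -(2 ^ Fintype.card B * ((M : ℝ) ^ Fintype.card T)⁻¹) ≤
      ∑ θ ∈ (univ : Finset (T → Fin M)).erase θ0,
      ∏ W, (2 * Real.cos (2 * Real.pi / M * tot r (fun S => ((θ S : ℕ) : ℤ)) W)) :=
    sum_le_sum fun θ hθ => (h3 θ hθ).le
  rw [sum_const, card_erase_of_mem (mem_univ _), card_univ, Fintype.card_fun, Fintype.card_fin,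
    nsmul_eq_mul] at h7
  have h8 : 1 ≤ M ^ Fintype.card T := Nat.one_le_pow _ _ hM0
  rw [Nat.cast_sub h8, Nat.cast_pow, Nat.cast_one] at h7
  have h9 : (0 : ℝ) < (M : ℝ) ^ Fintype.card T := by positivity
  have h10 : ((M : ℝ) ^ Fintype.card T - 1) * -(2 ^ Fintype.card B * ((M : ℝ) ^ Fintype.card T)⁻¹) =
      -2 ^ Fintype.card B + 2 ^ Fintype.card B * ((M : ℝ) ^ Fintype.card T)⁻¹ := by
    field_simp
    ring
  rw [h10] at h7
  have h11 : (0 : ℝ) < 2 ^ Fintype.card B * ((M : ℝ) ^ Fintype.card T)⁻¹ := by positivity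
  linarith

end Pool.H38.HQ
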