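import Pool.Agent.H38.HQ.Four

/-! From a weak local statement to a halving. `x W = 2 θ(W) / M`, `n W = round (x W)`. If there is no
halving then the sum of the `|x W - n W| ^ 2` is at most `N log M / 2`; if all `|x W - n W| < 1/2` and
`∑ f0 (x - n) = 0` for an odd valued null function `f0` then the product of the cosines is positive. -/

open Finset

namespace Pool.H38.HQ

theorem cos_round (x : ℝ) : |Real.cos (Real.pi * x)| ≤ Real.exp (-2 * |x - round x| ^ 2) := by
  have h1 : Real.cos (Real.pi * x) = (-1) ^ (round x).natAbs * Real.cos (Real.pi * (x - round x)) := by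
    have h2 : Real.pi * (x - round x) = Real.pi * x - (round x : ℤ) * Real.pi := by ring
    rw [h2, Real.cos_sub_int_mul_pi, ← mul_assoc]
    have h3 : (-1 : ℝ) ^ (round x).natAbs * (-1) ^ (round x) = 1 := by
      rcases Int.even_or_odd (round x) with h | h
      · rw [h.neg_one_zpow, (Int.natAbs_even.2 h).neg_one_pow, one_mul]
      · rw [h.neg_one_zpow, (Int.natAbs_odd.2 h).neg_one_pow]
        norm_num
    rw [h3, one_mul]
  rw [h1, abs_mul, abs_pow, abs_neg, abs_one, one_pow, one_mul]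
  have h4 : |x - round x| ≤ 1 / 2 := abs_sub_round x
  have h5 : |Real.pi * (x - round x)| ≤ Real.pi / 2 := by
    rw [abs_mul, abs_of_pos Real.pi_pos]
    nlinarith [Real.pi_pos]
  have h6 : 0 ≤ Real.cos (Real.pi * (x - round x)) :=
    Real.cos_nonneg_of_mem_Icc ⟨by linarith [(abs_le.1 h5).1], (abs_le.1 h5).2⟩
  rw [abs_of_nonneg h6]
  have h7 := Real.cos_le_one_sub_mul_cos_sq (x := Real.pi * (x - round x))
    (by linarith [Real.pi_pos])
  have h8 : 2 / Real.pi ^ 2 * (Real.pi * (x - round x)) ^ 2 = 2 * |x - round x| ^ 2 := by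
    rw [sq_abs]
    field_simp
  rw [h8] at h7
  have h9 := Real.add_one_le_exp (-2 * |x - round x| ^ 2)
  linarith

theorem cos_sign (x : ℝ) (h : |x - round x| < 1 / 2) :
    0 < (-1 : ℝ) ^ (round x).natAbs * Real.cos (Real.pi * x) := by
  have h2 : Real.pi * x = Real.pi * (x - round x) + (round x : ℤ) * Real.pi := by ring
  rw [h2, Real.cos_add_int_mul_pi, ← mul_assoc]
  have h3 : (-1 : ℝ) ^ (round x).natAbs * (-1) ^ (round x) = 1 := by
    rcases Int.even_or_odd (round x) with h | h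
    · rw [h.neg_one_zpow, (Int.natAbs_even.2 h).neg_one_pow, one_mul]
    · rw [h.neg_one_zpow, (Int.natAbs_odd.2 h).neg_one_pow]
      norm_num
  rw [h3, one_mul]
  have h5 : |Real.pi * (x - round x)| < Real.pi / 2 := by
    rw [abs_mul, abs_of_pos Real.pi_pos]
    nlinarith [Real.pi_pos]
  exact Real.cos_pos_of_mem_Ioo ⟨by linarith [(abs_lt.1 h5).1], (abs_lt.1 h5).2⟩

theorem prod_pos_of_even {B : Type} [Fintype B] (x : B → ℝ) (f0 : B → ℤ) (hodd : ∀ W, Odd (f0 W))
    (h1 : ∀ W, |x W - round (x W)| < 1 / 2) (h0 : ∑ W, f0 W * round (x W) = 0) :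
    0 < ∏ W, Real.cos (Real.pi * x W) := by
  have h2 : 0 < ∏ W, ((-1 : ℝ) ^ (round (x W)).natAbs * Real.cos (Real.pi * x W)) :=
    prod_pos fun W _ => cos_sign (x W) (h1 W)
  rw [prod_mul_distrib, prod_pow_eq_pow_sum] at h2
  have h3 : Even (∑ W, (round (x W)).natAbs) := by
    rw [← Int.even_coe_nat]
    push_cast
    have h4 : Even (∑ W, (|round (x W)| - f0 W * round (x W))) := by
      refine Finset.even_sum _ fun W _ => ?_
      rw [Int.even_sub]
      obtain ⟨m, hm⟩ := hodd W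
      rcases Int.even_or_odd (round (x W)) with h | h
      · have h5 : Even |round (x W)| := by rwa [even_abs]
        simp only [h5, true_iff]
        exact h.mul_left _
      · have h5 : Odd |round (x W)| := by rwa [odd_abs]
        have h6 : Odd (f0 W * round (x W)) := (hodd W).mul h
        rw [← Int.not_odd_iff_even, ← Int.not_odd_iff_even]
        simp [h5, h6]
    rw [sum_sub_distrib, h0, sub_zero] at h4
    exact h4
  rw [h3.neg_one_pow, one_mul] at h2
  exact h2

variable {B T : Type} [Fintype B] [Fintype T] [DecidableEq B] [DecidableEq T]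
  (r : T → B → Prop) [∀ S W, Decidable (r S W)]

theorem halving_of (f0 : B → ℤ) (hodd : ∀ W, Odd (f0 W)) (hnull : Null r f0)
    (loc : ∀ x : B → ℝ, (∀ g : B → ℤ, Null r g → ∑ W, (g W : ℝ) * x W = 0) →
      ∑ W, |x W - round (x W)| ^ 2 ≤ Fintype.card T * Real.log (Fintype.card B + 1) / 2 →
      (∀ W, |x W - round (x W)| < 1 / 2) ∧ ∑ W, (f0 W : ℝ) * (x W - round (x W)) = 0) :
    ∃ f : B → ℤ, (∀ W, f W = 1 ∨ f W = -1) ∧ Null r f := by
  by_contra hno
  obtain ⟨θ, hθ⟩ := four r hno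
  obtain ⟨x, hx⟩ : ∃ x : B → ℝ, x = fun W => 2 * (tot r θ W : ℝ) / (Fintype.card B + 1) := ⟨_, rfl⟩
  have hθ' : ∏ W, Real.cos (Real.pi * x W) ≤
      -((Fintype.card B + 1 : ℝ) ^ Fintype.card T)⁻¹ := by
    rw [hx]
    exact hθ
  have hM : (0 : ℝ) < Fintype.card B + 1 := by positivity
  have hx1 : ∀ g : B → ℤ, Null r g → ∑ W, (g W : ℝ) * x W = 0 := by
    intro g hg
    have h1 := tot_swap r g θ
    have h2 : ∑ S, θ S * ∑ W with r S W, g W = 0 := by
      refine sum_eq_zero fun S _ => ?_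
      rw [hg S, mul_zero]
    rw [h2] at h1
    have h3 : ((∑ W, g W * tot r θ W : ℤ) : ℝ) = 0 := by
      rw [h1, Int.cast_zero]
    rw [Int.cast_sum] at h3
    have h4 : ∑ W, (g W : ℝ) * x W =
        2 / (Fintype.card B + 1) * ∑ W, ((g W * tot r θ W : ℤ) : ℝ) := by
      rw [mul_sum, hx]
      refine sum_congr rfl fun W _ => ?_
      push_cast
      ring
    rw [h4, h3, mul_zero]
  have hE : ∑ W, |x W - round (x W)| ^ 2 ≤ Fintype.card T * Real.log (Fintype.card B + 1) / 2 := by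
    have h1 : |∏ W, Real.cos (Real.pi * x W)| ≤
        Real.exp (-2 * ∑ W, |x W - round (x W)| ^ 2) := by
      rw [abs_prod, mul_sum, Real.exp_sum]
      exact prod_le_prod (fun W _ => abs_nonneg _) fun W _ => cos_round (x W)
    have h2 : ((Fintype.card B + 1 : ℝ) ^ Fintype.card T)⁻¹ ≤ |∏ W, Real.cos (Real.pi * x W)| := by
      have := neg_le_abs (∏ W, Real.cos (Real.pi * x W))
      linarith
    have h3 := h2.trans h1
    have h4 : ((Fintype.card B + 1 : ℝ) ^ Fintype.card T)⁻¹ =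
        Real.exp (-(Fintype.card T * Real.log (Fintype.card B + 1))) := by
      rw [Real.exp_neg, Real.exp_nat_mul, Real.exp_log hM]
    rw [h4, Real.exp_le_exp] at h3
    linarith
  obtain ⟨h1, h2⟩ := loc x hx1 hE
  have h3 := hx1 f0 hnull
  have h4 : ∑ W, f0 W * round (x W) = 0 := by
    have h5 : ((∑ W, f0 W * round (x W) : ℤ) : ℝ) = 0 := by
      push_cast
      have h6 : ∑ W, (f0 W : ℝ) * (x W - round (x W)) =
          ∑ W, (f0 W : ℝ) * x W - ∑ W, (f0 W : ℝ) * round (x W) := by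
        rw [← sum_sub_distrib]
        exact sum_congr rfl fun W _ => by ring
      linarith
    exact_mod_cast h5
  have h5 := prod_pos_of_even x f0 hodd h1 h4
  have h6 : (0 : ℝ) < ((Fintype.card B + 1 : ℝ) ^ Fintype.card T)⁻¹ := by positivity
  linarith

open scoped Classical in
/-- STEP 2 in the form of helper64 -/
theorem fourier {α β : Type} [Fintype α] [Fintype β] (inc : α → β → Prop)
    (h : ¬ ∃ f : β → ℤ, (∀ b, f b = 1 ∨ f b = -1) ∧ ∀ a, ∑ b, (if inc a b then f b else 0) = 0) :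
    ∃ ξ : α → ℝ, (∏ b, Real.cos (Real.pi * ∑ a, (if inc a b then ξ a else 0))) < 0 ∧
      ∑ b, ((∑ a, if inc a b then ξ a else 0) - round (∑ a, if inc a b then ξ a else 0)) ^ 2 ≤
        Fintype.card α * Real.log (Fintype.card β + 1) / 2 := by
  have hno : ¬ ∃ f : β → ℤ, (∀ W, f W = 1 ∨ f W = -1) ∧ Null inc f := by
    rintro ⟨f, h1, h2⟩
    refine h ⟨f, h1, fun a => ?_⟩
    rw [← sum_filter]
    exact h2 a
  obtain ⟨θ, hθ⟩ := four inc hno
  refine ⟨fun a => 2 * (θ a : ℝ) / (Fintype.card β + 1), ?_⟩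
  have hx : ∀ b, ∑ a, (if inc a b then 2 * (θ a : ℝ) / (Fintype.card β + 1) else 0) =
      2 * (tot inc θ b : ℝ) / (Fintype.card β + 1) := by
    intro b
    unfold tot
    rw [← sum_filter, ← sum_div, ← mul_sum]
    push_cast
    rfl
  simp only [hx]
  obtain ⟨x, hx'⟩ : ∃ x : β → ℝ, x = fun W => 2 * (tot inc θ W : ℝ) / (Fintype.card β + 1) :=
    ⟨_, rfl⟩
  have hxb : ∀ W, 2 * (tot inc θ W : ℝ) / (Fintype.card β + 1) = x W := fun W => by rw [hx']
  simp only [hxb] at hθ ⊢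
  have hM : (0 : ℝ) < Fintype.card β + 1 := by positivity
  have h6 : (0 : ℝ) < ((Fintype.card β + 1 : ℝ) ^ Fintype.card α)⁻¹ := by positivity
  refine ⟨by linarith, ?_⟩
  have h1 : |∏ W, Real.cos (Real.pi * x W)| ≤
      Real.exp (-2 * ∑ W, |x W - round (x W)| ^ 2) := by
    rw [abs_prod, mul_sum, Real.exp_sum]
    exact prod_le_prod (fun W _ => abs_nonneg _) fun W _ => cos_round (x W)
  have h2 : ((Fintype.card β + 1 : ℝ) ^ Fintype.card α)⁻¹ ≤ |∏ W, Real.cos (Real.pi * x W)| := by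
    have := neg_le_abs (∏ W, Real.cos (Real.pi * x W))
    linarith
  have h3 := h2.trans h1
  have h4 : ((Fintype.card β + 1 : ℝ) ^ Fintype.card α)⁻¹ =
      Real.exp (-(Fintype.card α * Real.log (Fintype.card β + 1))) := by
    rw [Real.exp_neg, Real.exp_nat_mul, Real.exp_log hM]
  rw [h4, Real.exp_le_exp] at h3
  simp only [sq_abs] at h3
  linarith

/-- STEP 6 in the form of helper64 -/
theorem pos_of_odd {β : Type} [Fintype β] (x : β → ℝ) (f : β → ℤ) (hf : ∀ b, Odd (f b))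
    (h1 : ∑ b, (f b : ℝ) * x b = 0) (h2 : ∑ b, (f b : ℝ) * (x b - round (x b)) = 0)
    (h3 : ∀ b, |x b - round (x b)| < 1 / 2) : 0 < ∏ b, Real.cos (Real.pi * x b) := by
  refine prod_pos_of_even x f hf h3 ?_
  have h5 : ((∑ W, f W * round (x W) : ℤ) : ℝ) = 0 := by
    push_cast
    have h6 : ∑ W, (f W : ℝ) * (x W - round (x W)) =
        ∑ W, (f W : ℝ) * x W - ∑ W, (f W : ℝ) * round (x W) := by
      rw [← sum_sub_distrib]
      exact sum_congr rfl fun W _ => by ring
    linarith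
  exact_mod_cast h5

/-- the average of STEP 4 -/
theorem avg_cs {Λ S β : Type} [Fintype Λ] [Fintype S] [Fintype β] (blk : Λ → S → β) (d : β → ℝ)
    (hd : ∀ b, 0 ≤ d b) (r : ℝ) (hr : ∀ l, r ≤ ∑ s, d (blk l s)) (hr0 : 0 ≤ r) (c : ℕ)
    (hc : ∀ s b, Nat.card {l // blk l s = b} ≤ c) :
    (Fintype.card Λ : ℝ) * r ^ 2 ≤ (Fintype.card S : ℝ) ^ 2 * c * ∑ b, d b ^ 2 := by
  classical
  have h1 : ∀ l, r ^ 2 ≤ Fintype.card S * ∑ s, d (blk l s) ^ 2 := by
    intro l
    have h2 : r ^ 2 ≤ (∑ s, d (blk l s)) ^ 2 := pow_le_pow_left₀ hr0 (hr l) 2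
    have h3 := sq_sum_le_card_mul_sum_sq (s := (univ : Finset S)) (f := fun s => d (blk l s))
    rw [card_univ] at h3
    exact h2.trans h3
  have h4 : (Fintype.card Λ : ℝ) * r ^ 2 ≤ Fintype.card S * ∑ s, ∑ l, d (blk l s) ^ 2 := by
    have h5 := sum_le_sum (s := (univ : Finset Λ)) fun l _ => h1 l
    rw [sum_const, card_univ, nsmul_eq_mul, ← mul_sum, sum_comm] at h5
    exact h5
  have h6 : ∀ s, ∑ l, d (blk l s) ^ 2 ≤ c * ∑ b, d b ^ 2 := by
    intro s
    have h7 : ∑ l, d (blk l s) ^ 2 = ∑ b, ∑ l with blk l s = b, d (blk l s) ^ 2 :=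
      (sum_fiberwise _ _ _).symm
    rw [h7, mul_sum]
    refine sum_le_sum fun b _ => ?_
    have h8 : ∑ l with blk l s = b, d (blk l s) ^ 2 = ∑ l with blk l s = b, d b ^ 2 := by
      refine sum_congr rfl fun l hl => ?_
      rw [(mem_filter.1 hl).2]
    rw [h8, sum_const, nsmul_eq_mul]
    refine mul_le_mul_of_nonneg_right ?_ (sq_nonneg _)
    have h9 := hc s b
    rw [Nat.card_eq_fintype_card, Fintype.card_subtype] at h9
    exact_mod_cast h9
  refine h4.trans ?_
  have h10 : ∑ s, ∑ l, d (blk l s) ^ 2 ≤ Fintype.card S * (c * ∑ b, d b ^ 2) := by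
    refine (sum_le_sum fun s _ => h6 s).trans (le_of_eq ?_)
    rw [sum_const, card_univ, nsmul_eq_mul]
  calc (Fintype.card S : ℝ) * ∑ s, ∑ l, d (blk l s) ^ 2
      ≤ Fintype.card S * (Fintype.card S * (c * ∑ b, d b ^ 2)) :=
        mul_le_mul_of_nonneg_left h10 (by positivity)
    _ = _ := by ring

end Pool.H38.HQ
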